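import Pool.Agent.Helper1_RL.All

/-!
# Noncollapsed Ricci limit spaces which are not manifolds off codimension three (MP_62da59_gt)

There is a noncollapsed Ricci limit space `X` of dimension `4` such that for every subset `S` of
Hausdorff dimension at most `1 = 4 - 3` the complement of `S` is not a topological `4`-manifold.
-/

open Pool.Agent.RLim

theorem Pool.Agent.Results.MP_62da59_gt.NotManifoldOffCodimThree.result :
    ∃ lam v : ℝ, 0 ≤ lam ∧ 0 < v ∧ ∃ (X : Type) (_ : MetricSpace X) (q : X),
      IsNoncollapsedRicciLimit 4 lam v X q ∧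
      ∀ S : Set X, dimH S ≤ 1 →
        IsEmpty (ChartedSpace (EuclideanSpace ℝ (Fin 4)) (Sᶜ : Set X)) :=
  Pool.Agent.RLim.main
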